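import Pool.Agent.H856.DV.Main

/-!
# The Tate conjecture for the hypersurfaces `z ^ p - z = f (x_1, ..., x_(2c))`

Let `k` be a finite field with `q` elements, of characteristic `p`, let `d` be a divisor of `p - 1` and
let `f` be a polynomial in `n = 2 c` variables over `k` of degree `d`, the terms of degree `d` of which
are `a_1 x_1 ^ d + ... + a_n x_n ^ d` with nonzero `a_i`; all the other coefficients of `f` are
arbitrary. Let `U` be the smooth affine hypersurface `z ^ p - z = f (x_1, ..., x_n)`, of dimension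
`2 c`. Its only interesting cohomology group is `H = H_c ^ (2c) (U)`; it has dimension
`(p - 1) (d - 1) ^ (2c)` and is pure of weight `2c`. The multiset `Γ` of the eigenvalues of Frobenius
on `H` computes the numbers of points: `U` has `Q ^ (2c) + ∑ γ ^ s` points over the extension of degree
`s`, with `Q = q ^ s` elements. It also is the multiset of the eigenvalues of the linear Frobenius on
the part of the crystalline (or rigid) cohomology.

If `2 c d + 3 < p`, we prove: for every finite extension `L` of `k`, with `p ^ M` elements, the number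
of the eigenvalues of the Frobenius of `L` on `H` which are equal to `|L| ^ c` is at most `p - 1` times
the number of the `w = (w_1, ..., w_n)` with `1 ≤ w_i < d`, of sum `c d`, such that
`∏ a_i ^ ((|L| - 1) w_i / d) = (-1) ^ (c M) (∏ ((p - 1) w_i / d)!) ^ M` in `L`. In particular there are
no such eigenvalues, if the class of one of the `a_i` generates `L ^ * / (L ^ *) ^ d`, all the other
`a_i` are `d`-th powers in `L`, and `d = 3` or `M` is divisible by `p - 1`.
For the Tate conjecture this means (not in Lean):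

* The groups `H ^ (2i) (U)` vanish for `i` different from `0` and `c`, and `H ^ (2c) (U)` is dual to
  `H (2c)`. So in the cases without eigenvalue `|L| ^ c`, for every smooth projective variety `X` which
  contains `U` as an open subvariety the Tate classes on `X` over `L` of positive codimension, in the
  `l`-adic and in the crystalline cohomology, come from the boundary of `U`.
* The closure of `U` in the product of projective spaces of the dimensions `n` and `1` has after
  normalization toroidal singularities; so there are such `X` for which the components of the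
  boundary are built by projective spaces, toric varieties and the diagonal hypersurface
  `F : a_1 x_1 ^ d + ... + a_n x_n ^ d = 0`. So the Tate conjecture for `X` over `L`, in all
  codimensions, follows from the one for `F`, which is known for example for all prime `d`.

The varieties have the arbitrary dimension `2c`, and for `c > 1` they are neither products nor dominated
by products of curves, in general.

The proof. By the theory of Dwork (in the files of `helper425`) the `L`-function of `∑ ψ (f)` is a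
polynomial of degree `(d - 1) ^ (2c)`, the characteristic polynomial of a matrix over a ramified
extension of the Witt vectors, up to any given power of the prime. For a diagonal leading form the
monomials `x ^ (w - 1)`, `1 ≤ w_i < d`, are a basis in which the matrix (which is a product of
conjugate matrices) is modulo the next power of the prime diagonal in each row of the level
`∑ w_i ≤ c d`, with the exact order `∑ w_i / d`. Hence the eigenvalues of slope `c` are, modulo the prime,
`q ^ c` times the products of the diagonal elements.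
-/

set_option autoImplicit false

open Polynomial

namespace Pool.Agent.Results.MP_60ec62_ag.DiagonalAtInfinity

/-- the number of points over `L` of the affine hypersurface `U : z ^ p - z = f (x_1, ..., x_n)` -/
noncomputable def points (p : ℕ) {n : ℕ} {k : Type} [Field k] (f : MvPolynomial (Fin n) k)
    (L : Type) [Field L] [Algebra k L] : ℕ :=
  Nat.card {P : (Fin n → L) × L // P.2 ^ p - P.2 = MvPolynomial.aeval P.1 f}

/-- `Γ` is the multiset of the eigenvalues of Frobenius on the cohomology of degree `n` (with compact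
supports) of `U`, where `n` is even -/
def IsSpectrum (p : ℕ) {n : ℕ} {k : Type} [Field k] (f : MvPolynomial (Fin n) k)
    (Γ : Multiset ℂ) : Prop :=
  ∀ (L : Type) [Field L] [Finite L] [Algebra k L],
    (points p f L : ℂ) = (Nat.card L : ℂ) ^ n + (Γ.map fun γ => γ ^ Module.finrank k L).sum

/-- the terms of degree `d` of `f` are `a_1 x_1 ^ d + ... + a_n x_n ^ d` with nonzero `a_i`, and there
are no terms of higher degree -/
structure Diagonal (d : ℕ) {n : ℕ} {k : Type} [Field k] (f : MvPolynomial (Fin n) k) : Prop where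
  /-- the degree is at most `d` -/
  totalDegree_le : f.totalDegree ≤ d
  /-- there are no mixed terms of degree `d` -/
  mixed : ∀ s : Fin n →₀ ℕ, s.degree = d → (∀ i, s ≠ Finsupp.single i d) →
    MvPolynomial.coeff s f = 0
  /-- the pure terms -/
  pure : ∀ i, MvPolynomial.coeff (Finsupp.single i d) f ≠ 0

/-- the coefficient `a_i` of `x_i ^ d` in `f`, as an element of `L` -/
noncomputable def lc (d : ℕ) {n : ℕ} {k : Type} [Field k] (f : MvPolynomial (Fin n) k)
    (L : Type) [Field L] [Algebra k L] (i : Fin n) : L :=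
  algebraMap k L (MvPolynomial.coeff (Finsupp.single i d) f)

/-- for elements `a_1, ..., a_n` of the field `L` with `p ^ M` elements, the number of the
`w = (w_1, ..., w_n)` with `1 ≤ w_i < d`, of sum `c d`, such that
`∏ a_i ^ ((p ^ M - 1) w_i / d) = (-1) ^ (c M) (∏ ((p - 1) w_i / d)!) ^ M` -/
noncomputable def residueCount (p d c M : ℕ) {n : ℕ} {L : Type} [Field L] (a : Fin n → L) : ℕ :=
  Nat.card {w : Fin n → ℕ // (∀ i, 1 ≤ w i ∧ w i < d) ∧ ∑ i, w i = c * d ∧
    ∏ i, a i ^ ((p ^ M - 1) / d * w i) =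
      (-1) ^ (c * M) * (∏ i, ((((p - 1) / d * w i).factorial : ℕ) : L)) ^ M}

/-- the number of the `γ` in `Γ` with `γ ^ [L : k] = (q ^ c) ^ [L : k]`, where `q` is the number of
elements of `k` -/
noncomputable def tateRank (k L : Type) [Field k] [Field L] [Algebra k L] (c : ℕ)
    (Γ : Multiset ℂ) : ℕ :=
  Multiset.card (Γ.filter fun γ =>
    γ ^ Module.finrank k L = ((Nat.card k : ℂ) ^ c) ^ Module.finrank k L)

/-- for one index `i`, the class of `a_i` generates `L ^ * / (L ^ *) ^ d`, and the other `a_j` are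
`d`-th powers in `L` (a finite field with `1` modulo `d` elements) -/
def OneGenerator (d : ℕ) {n : ℕ} {L : Type} [Field L] (a : Fin n → L) : Prop :=
  ∃ i, (∀ w, 0 < w → w < d → a i ^ ((Nat.card L - 1) / d * w) ≠ 1) ∧
    ∀ j, j ≠ i → ∃ b, b ^ d = a j

/-! ## Proofs -/

theorem Diagonal.LF {d n : ℕ} {k : Type} [Field k] {f : MvPolynomial (Fin n) k}
    (h : Diagonal d f) : Pool.Agent.H856.DV.S0.LF d f :=
  ⟨h.totalDegree_le, h.mixed, h.pure⟩

theorem Diagonal.map {d n : ℕ} {k K : Type} [Field k] [Field K] {f : MvPolynomial (Fin n) k}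
    (h : Diagonal d f) (φ : k →+* K) : Diagonal d (MvPolynomial.map φ f) := by
  have h1 := Pool.Agent.H856.DV.LF_map φ h.LF
  exact ⟨h1.hf, h1.hdiag, h1.hne⟩

theorem geom (p M d : ℕ) (hp : 1 < p) (hdp : d ∣ p - 1) :
    (p ^ M - 1) / d = (p - 1) / d * ∑ t ∈ Finset.range M, p ^ t := by
  have h1 : (p - 1) * ∑ t ∈ Finset.range M, p ^ t = p ^ M - 1 := by
    have h2 := Nat.geomSum_eq hp M
    have h3 : (p - 1) ∣ p ^ M - 1 := by
      have := Nat.sub_dvd_pow_sub_pow p 1 M
      rwa [one_pow] at this
    rw [h2, Nat.mul_div_cancel' h3]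
  rw [← h1, mul_comm ((p - 1) / d), mul_comm (p - 1), Nat.mul_div_assoc _ hdp]

theorem rs_formula {L : Type} [Field L] (p : ℕ) [hp : Fact p.Prime] [CharP L p] (d c : ℕ)
    (hd : 0 < d) (hdp : d ∣ p - 1) {n : ℕ} (f : MvPolynomial (Fin n) L) (m : ℕ)
    (u : Fin n → Fin (d - 1)) (h : Pool.Agent.H856.DV.S0.rs p d c f m u = 1) :
    ∏ i, (MvPolynomial.coeff (Finsupp.single i d) f) ^
        ((p ^ (m + 1) - 1) / d * ((u i : ℕ) + 1)) =
      (-1) ^ (c * (m + 1)) *
        (∏ i, ((((p - 1) / d * ((u i : ℕ) + 1)).factorial : ℕ) : L)) ^ (m + 1) := by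
  have hp1 := hp.out.one_lt
  set a : Fin n → L := fun i => MvPolynomial.coeff (Finsupp.single i d) f with ha
  set N : Fin n → ℕ := fun i => (p - 1) / d * ((u i : ℕ) + 1) with hN
  have hNe : ∀ i, (p - 1) * ((u i : ℕ) + 1) / d = N i := by
    intro i
    rw [hN, mul_comm (p - 1), Nat.mul_div_assoc _ hdp, mul_comm]
  have hfac : ∀ i, ((N i).factorial : L) ≠ 0 := by
    intro i
    refine Pool.Agent.H856.DW.fac_ne hp.out ?_
    have h1 := (u i).2
    have h2 : (p - 1) / d * ((u i : ℕ) + 1) ≤ (p - 1) / d * d := Nat.mul_le_mul_left _ (by omega)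
    rw [Nat.div_mul_cancel hdp] at h2
    change (p - 1) / d * ((u i : ℕ) + 1) < p
    omega
  have h1 : Pool.Agent.H856.DV.S0.rs p d c f m u = (-1) ^ (c * (m + 1)) *
      ((∏ i, ((N i).factorial : L))⁻¹ ^ (m + 1) *
        ∏ i, a i ^ ((p ^ (m + 1) - 1) / d * ((u i : ℕ) + 1))) := by
    rw [Pool.Agent.H856.DV.S0.rs, Finset.prod_mul_distrib, Finset.prod_const, Finset.card_range,
      ← pow_mul]
    congr 1
    simp only [Pool.Agent.H856.DV.S0.hdg, hNe]
    simp only [Finset.prod_mul_distrib]
    rw [Finset.prod_const, Finset.card_range]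
    congr 1
    · rw [Finset.prod_inv_distrib]
    · rw [Finset.prod_comm]
      refine Finset.prod_congr rfl fun i _ => ?_
      rw [geom p (m + 1) d hp1 hdp]
      have h2 : ∀ t ∈ Finset.range (m + 1), (MvPolynomial.coeff (Finsupp.single i d) f ^ p ^ t) ^ N i =
          a i ^ (p ^ t * N i) := by
        intro t _
        exact (pow_mul _ _ _).symm
      rw [Finset.prod_congr rfl h2, Finset.prod_pow_eq_pow_sum, ← Finset.sum_mul]
      congr 1
      rw [hN]
      ring
  rw [h1] at h
  have hprod : (∏ i, ((N i).factorial : L)) ≠ 0 := Finset.prod_ne_zero_iff.2 fun i _ => hfac i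
  have hs : ((-1 : L) ^ (c * (m + 1))) * (-1) ^ (c * (m + 1)) = 1 := by
    rw [← mul_pow]
    simp
  set A := ∏ i, a i ^ ((p ^ (m + 1) - 1) / d * ((u i : ℕ) + 1)) with hA
  set B := ∏ i, ((N i).factorial : L) with hB
  have hBB : B⁻¹ ^ (m + 1) * B ^ (m + 1) = 1 := by
    rw [← mul_pow, inv_mul_cancel₀ hprod, one_pow]
  calc A = ((-1 : L) ^ (c * (m + 1)) * (-1) ^ (c * (m + 1))) * (B⁻¹ ^ (m + 1) * B ^ (m + 1)) * A := by
        rw [hs, hBB]; ring
    _ = (-1) ^ (c * (m + 1)) * B ^ (m + 1) *
        ((-1) ^ (c * (m + 1)) * (B⁻¹ ^ (m + 1) * A)) := by ring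
    _ = _ := by rw [h, mul_one]

theorem IsSpectrum.map {n : ℕ} {k : Type} [Field k] [Finite k] {p : ℕ}
    {f : MvPolynomial (Fin n) k} {Γ : Multiset ℂ} (h : IsSpectrum p f Γ) (L : Type) [Field L]
    [Finite L] [Algebra k L] : IsSpectrum p (MvPolynomial.map (algebraMap k L) f)
      (Γ.map fun γ => γ ^ Module.finrank k L) := by
  intro M _ _ _
  let : Algebra k M := ((algebraMap L M).comp (algebraMap k L)).toAlgebra
  have : IsScalarTower k L M := IsScalarTower.of_algebraMap_eq' rfl
  have h1 := h M
  have h2 : points p (MvPolynomial.map (algebraMap k L) f) M = points p f M := by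
    rw [points, points]
    refine Nat.card_congr (Equiv.subtypeEquivRight fun P => ?_)
    rw [MvPolynomial.aeval_map_algebraMap]
  rw [h2, h1, Multiset.map_map]
  congr 2
  refine Multiset.map_congr rfl fun γ _ => ?_
  rw [Function.comp_apply, ← pow_mul, Module.finrank_mul_finrank]

theorem IsSpectrum.count_eq {n : ℕ} {k : Type} [Field k] [Finite k] {p : ℕ} [Fact p.Prime]
    [CharP k p] {f : MvPolynomial (Fin n) k} {A B : Multiset ℂ} (hA : IsSpectrum p f A)
    (hB : IsSpectrum p f B) [DecidableEq ℂ] (x : ℂ) (hx : x ≠ 0) : A.count x = B.count x := by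
  refine Pool.Agent.H856.DW.count_eq_of_powerSums A B (fun s hs => ?_) x hx
  have : NeZero s := ⟨by omega⟩
  have h1 := hA (FiniteField.Extension k p s)
  have h2 := hB (FiniteField.Extension k p s)
  rw [FiniteField.finrank_extension] at h1 h2
  exact add_left_cancel (h1.symm.trans h2)

theorem tateRank_le {k : Type} [Field k] [Finite k] (p : ℕ) [hp : Fact p.Prime] [CharP k p]
    (d c : ℕ) (hd : 2 ≤ d) (hc : 1 ≤ c) (hdp : d ∣ p - 1) (hpd : 2 * (c * d) + 3 < p)
    (f : MvPolynomial (Fin (2 * c)) k) (hf : Diagonal d f) (Γ : Multiset ℂ)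
    (hΓ : IsSpectrum p f Γ) (L : Type) [Field L] [Finite L] [Algebra k L] (M : ℕ)
    (hM : Nat.card L = p ^ M) :
    tateRank k L c Γ ≤ (p - 1) * residueCount p d c M (lc d f L) := by
  classical
  have : CharP L p := charP_of_injective_algebraMap (algebraMap k L).injective p
  obtain ⟨m, rfl⟩ : ∃ m, M = m + 1 := by
    refine ⟨M - 1, ?_⟩
    rcases Nat.eq_zero_or_pos M with h | h
    · rw [h, pow_zero] at hM
      have := Finite.one_lt_card (α := L)
      omega
    · omega
  obtain ⟨Γ', h1, h2, h3⟩ := Pool.Agent.H856.DV.main p d c hd hc hdp hpd (Fintype.card_fin _)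
    (MvPolynomial.map (algebraMap k L) f) (hf.map (algebraMap k L)).LF m hM
  have h4 := hΓ.map L
  have hne : ((Nat.card L : ℂ) ^ c) ≠ 0 := pow_ne_zero _ (Nat.cast_ne_zero.2 Nat.card_pos.ne')
  have h5 := h4.count_eq (B := Γ') h2 ((Nat.card L : ℂ) ^ c) hne
  have h6 : tateRank k L c Γ = (Γ.map fun γ => γ ^ Module.finrank k L).count
      ((Nat.card L : ℂ) ^ c) := by
    rw [Multiset.count_map, tateRank]
    congr 1
    refine Multiset.filter_congr fun γ _ => ?_
    rw [Module.natCard_eq_pow_finrank (K := k) (V := L), Nat.cast_pow, ← pow_mul, ← pow_mul,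
      mul_comm c, eq_comm]
  rw [h6, h5]
  refine h3.trans (Nat.mul_le_mul_left _ ?_)
  rw [residueCount]
  have hfin : Finite {w : Fin (2 * c) → ℕ // (∀ i, 1 ≤ w i ∧ w i < d) ∧ ∑ i, w i = c * d ∧
      ∏ i, lc d f L i ^ ((p ^ (m + 1) - 1) / d * w i) =
      (-1) ^ (c * (m + 1)) *
        (∏ i, ((((p - 1) / d * w i).factorial : ℕ) : L)) ^ (m + 1)} := by
    refine Finite.of_injective
      (fun w => fun i => (⟨w.1 i, (w.2.1 i).2⟩ : Fin d) : _ → (Fin (2 * c) → Fin d)) ?_
    intro w w' h
    apply Subtype.ext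
    funext i
    have := congrFun h i
    exact Fin.mk.inj this
  refine Nat.card_le_card_of_injective
    (fun u => ⟨fun i => (u.1 i : ℕ) + 1, ?_, ?_, ?_⟩) ?_
  · intro i
    have := (u.1 i).2
    change 1 ≤ (u.1 i : ℕ) + 1 ∧ (u.1 i : ℕ) + 1 < d
    omega
  · exact u.2.1
  · have h7 := rs_formula p d c (by omega) hdp (MvPolynomial.map (algebraMap k L) f) m u.1 u.2.2
    simp only [MvPolynomial.coeff_map] at h7
    exact h7
  · intro u u' h
    apply Subtype.ext
    funext i
    have h7 := congrFun (Subtype.mk.inj h) i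
    exact Fin.ext (by omega)

theorem fac_fac {L : Type} [Field L] (p : ℕ) [hp : Fact p.Prime] [CharP L p] (j : ℕ)
    (hj : j ≤ p - 1) : ((j.factorial : ℕ) : L) * (((p - 1 - j).factorial : ℕ) : L) =
      (-1) ^ (j + 1) := by
  have hp1 := hp.out.one_lt
  induction j with
  | zero =>
    have h1 := ZMod.wilsons_lemma p
    have h2 := congrArg (ZMod.castHom (dvd_refl p) L) h1
    rw [map_natCast, map_neg, map_one] at h2
    rw [Nat.factorial_zero, Nat.sub_zero, h2]
    simp
  | succ j ih =>
    have h1 := ih (by omega)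
    obtain ⟨r, hr⟩ : ∃ r, p - 1 - j = r + 1 := ⟨p - 1 - j - 1, by omega⟩
    have h2 : p - 1 - (j + 1) = r := by omega
    rw [hr, Nat.factorial_succ] at h1
    rw [h2, Nat.factorial_succ]
    have h3 : ((r + 1 : ℕ) : L) = -((j + 1 : ℕ) : L) := by
      rw [eq_neg_iff_add_eq_zero, ← Nat.cast_add, CharP.cast_eq_zero_iff L p]
      exact ⟨1, by omega⟩
    have h4 : ((j + 1 : ℕ) : L) ≠ 0 := by
      intro h0
      have h5 := (CharP.cast_eq_zero_iff L p _).1 h0
      have := Nat.le_of_dvd (by omega) h5
      omega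
    rw [Nat.cast_mul, h3] at h1
    rw [Nat.cast_mul]
    have h5 : (j.factorial : L) * (r.factorial : L) * ((j + 1 : ℕ) : L) = -(-1) ^ (j + 1) := by
      linear_combination -h1
    calc ((j + 1 : ℕ) : L) * (j.factorial : L) * (r.factorial : L)
        = (j.factorial : L) * (r.factorial : L) * ((j + 1 : ℕ) : L) := by ring
      _ = -(-1) ^ (j + 1) := h5
      _ = _ := by ring

theorem gen_zero {L : Type} [Field L] [Finite L] (p d M n : ℕ) (hM : Nat.card L = p ^ M)
    (hdp : d ∣ p ^ M - 1) (a : Fin n → L) (ha : ∀ i, a i ≠ 0) (hgen : OneGenerator d a)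
    (w : Fin n → ℕ) (hw : ∀ i, 1 ≤ w i ∧ w i < d)
    (h : ∏ i, a i ^ ((p ^ M - 1) / d * w i) = 1) : False := by
  classical
  obtain ⟨i, h1, h2⟩ := hgen
  rw [← Finset.mul_prod_erase _ _ (Finset.mem_univ i), Finset.prod_eq_one, mul_one] at h
  · rw [hM] at h1
    exact h1 (w i) (hw i).1 (hw i).2 h
  · intro j hj
    rw [Finset.mem_erase] at hj
    obtain ⟨b, hb⟩ := h2 j hj.1
    have hb0 : b ≠ 0 := by
      rintro rfl
      apply ha j
      rw [← hb, zero_pow]
      have := hw j
      omega
    have := Fintype.ofFinite L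
    rw [← hb, ← pow_mul, ← mul_assoc, Nat.mul_div_cancel' hdp, pow_mul, ← hM,
      Nat.card_eq_fintype_card, FiniteField.pow_card_sub_one_eq_one b hb0, one_pow]

theorem even_zero {L : Type} [Field L] [Finite L] (p : ℕ) [hp : Fact p.Prime] [CharP L p]
    (d c M : ℕ) (hpd : 2 < p) (hdp : d ∣ p - 1) (hM : Nat.card L = p ^ M)
    (hMp : p - 1 ∣ M)
    {n : ℕ} (a : Fin n → L) (ha : ∀ i, a i ≠ 0) (hgen : OneGenerator d a) :
    residueCount p d c M a = 0 := by
  have hp1 := hp.out.one_lt
  rw [residueCount, Nat.card_eq_zero]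
  left
  refine ⟨fun w => ?_⟩
  obtain ⟨w, hw, hs, h⟩ := w
  have hpM : p - 1 ∣ p ^ M - 1 := by
    have := Nat.sub_dvd_pow_sub_pow p 1 M
    rwa [one_pow] at this
  refine gen_zero p d M n hM (hdp.trans hpM) a ha hgen w hw ?_
  rw [h]
  obtain ⟨r, hr⟩ := hMp
  have hodd : Odd p := hp.out.odd_of_ne_two (by omega)
  have h2 : Even (p - 1) := by
    obtain ⟨s, hs⟩ := hodd
    exact ⟨s, by omega⟩
  have h3 : Even (c * M) := by
    rw [hr]
    exact (h2.mul_right r).mul_left c
  rw [h3.neg_one_pow, one_mul, hr, pow_mul, ← Finset.prod_pow, Finset.prod_eq_one, one_pow]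
  intro i _
  have h4 : ((((p - 1) / d * w i).factorial : ℕ) : ZMod p) ≠ 0 := by
    refine Pool.Agent.H856.DW.fac_ne hp.out ?_
    have h2 : (p - 1) / d * w i ≤ (p - 1) / d * d := Nat.mul_le_mul_left _ (hw i).2.le
    rw [Nat.div_mul_cancel hdp] at h2
    omega
  have h5 := ZMod.pow_card_sub_one_eq_one h4
  have h6 := congrArg (ZMod.castHom (dvd_refl p) L) h5
  rwa [map_pow, map_natCast, map_one] at h6

theorem cubic_prod {A : Type} [CommMonoid A] (c : ℕ) (w : Fin (2 * c) → ℕ)
    (hw : ∀ i, 1 ≤ w i ∧ w i < 3) (hs : ∑ i, w i = c * 3) (g : ℕ → A) :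
    ∏ i, g (w i) = (g 1 * g 2) ^ c := by
  classical
  set A1 := Finset.univ.filter (fun i => w i = 1) with hA1
  set A2 := Finset.univ.filter (fun i => ¬ w i = 1) with hA2
  have hcard : A1.card + A2.card = 2 * c := by
    rw [hA1, hA2, Finset.card_filter_add_card_filter_not, Finset.card_univ, Fintype.card_fin]
  have h2 : ∀ i ∈ A2, w i = 2 := by
    intro i hi
    rw [hA2, Finset.mem_filter] at hi
    have := hw i
    omega
  have h1 : ∀ i ∈ A1, w i = 1 := by
    intro i hi
    rw [hA1, Finset.mem_filter] at hi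
    exact hi.2
  have hsum : A1.card + A2.card * 2 = c * 3 := by
    rw [← hs, ← Finset.sum_filter_add_sum_filter_not Finset.univ (fun i => w i = 1),
      Finset.sum_congr rfl h1, Finset.sum_congr rfl h2, Finset.sum_const, Finset.sum_const,
      smul_eq_mul, smul_eq_mul, mul_one]
  have e1 : ∏ i ∈ A1, g (w i) = g 1 ^ A1.card := by
    rw [← Finset.prod_const]
    exact Finset.prod_congr rfl fun i hi => by rw [h1 i hi]
  have e2 : ∏ i ∈ A2, g (w i) = g 2 ^ A2.card := by
    rw [← Finset.prod_const]
    exact Finset.prod_congr rfl fun i hi => by rw [h2 i hi]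
  have e3 : A1.card = c := by omega
  have e4 : A2.card = c := by omega
  rw [← Finset.prod_filter_mul_prod_filter_not Finset.univ (fun i => w i = 1), ← hA1, ← hA2, e1,
    e2, e3, e4, mul_pow]

theorem cubic_zero {L : Type} [Field L] [Finite L] (p : ℕ) [hp : Fact p.Prime] [CharP L p]
    (c M : ℕ) (hpd : 3 < p) (hdp : 3 ∣ p - 1) (hM : Nat.card L = p ^ M)
    (a : Fin (2 * c) → L) (ha : ∀ i, a i ≠ 0) (hgen : OneGenerator 3 a) :
    residueCount p 3 c M a = 0 := by
  have hp1 := hp.out.one_lt
  rw [residueCount, Nat.card_eq_zero]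
  left
  refine ⟨fun w => ?_⟩
  obtain ⟨w, hw, hs, h⟩ := w
  have hpM : p - 1 ∣ p ^ M - 1 := by
    have := Nat.sub_dvd_pow_sub_pow p 1 M
    rwa [one_pow] at this
  refine gen_zero p 3 M (2 * c) hM (hdp.trans hpM) a ha hgen w hw ?_
  rw [h, cubic_prod c w hw hs (fun j => ((((p - 1) / 3 * j).factorial : ℕ) : L))]
  obtain ⟨e, he⟩ := hdp
  have he2 : Even e := by
    have hodd : Odd p := hp.out.odd_of_ne_two (by omega)
    obtain ⟨s, hs⟩ := hodd
    rw [Nat.even_iff]
    omega
  have h1 := fac_fac (L := L) p e (by omega)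
  have h2 : p - 1 - e = e * 2 := by omega
  have h3 : (p - 1) / 3 = e := by omega
  rw [h2] at h1
  rw [h3, mul_one, h1, he2.add_one.neg_one_pow, ← pow_mul, ← mul_pow]
  simp

/-- see the description at the top of the file -/
theorem result (p : ℕ) [Fact p.Prime] (k : Type) [Field k] [Finite k] [CharP k p] (d c : ℕ)
    (hd : 2 ≤ d) (hc : 1 ≤ c) (hdp : d ∣ p - 1) (hpd : 2 * (c * d) + 3 < p)
    (f : MvPolynomial (Fin (2 * c)) k) (hf : Diagonal d f) :
    (∃ Γ : Multiset ℂ, Γ.card = (p - 1) * (d - 1) ^ (2 * c) ∧ IsSpectrum p f Γ) ∧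
    ∀ Γ : Multiset ℂ, IsSpectrum p f Γ → ∀ (L : Type) [Field L] [Finite L] [Algebra k L] (M : ℕ),
      Nat.card L = p ^ M →
      tateRank k L c Γ ≤ (p - 1) * residueCount p d c M (lc d f L) ∧
      (OneGenerator d (lc d f L) → (d = 3 ∨ p - 1 ∣ M) → tateRank k L c Γ = 0) := by
  constructor
  · classical
    obtain ⟨m, hm⟩ : ∃ m : ℕ, Nat.card k = p ^ (m + 1) := by
      have := Fintype.ofFinite k
      obtain ⟨n, hn1, hn2⟩ := FiniteField.card k p
      refine ⟨n - 1, ?_⟩
      rw [Nat.card_eq_fintype_card, hn2]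
      congr 1
      have : (n : ℕ) - 1 + 1 = n := Nat.sub_add_cancel n.2
      omega
    obtain ⟨Γ, h1, h2, -⟩ := Pool.Agent.H856.DV.main p d c hd hc hdp hpd (Fintype.card_fin _) f
      hf.LF m hm
    exact ⟨Γ, h1, h2⟩
  · intro Γ hΓ L _ _ _ M hM
    have hle := tateRank_le p d c hd hc hdp hpd f hf Γ hΓ L M hM
    refine ⟨hle, fun hgen hcase => ?_⟩
    have : CharP L p := charP_of_injective_algebraMap (algebraMap k L).injective p
    have ha : ∀ i, lc d f L i ≠ 0 := fun i => (_root_.map_ne_zero _).2 (hf.pure i)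
    have hdc : d ≤ c * d := Nat.le_mul_of_pos_left d hc
    have hzero : residueCount p d c M (lc d f L) = 0 := by
      rcases hcase with h3 | h3
      · subst h3
        exact cubic_zero p c M (by omega) hdp hM _ ha hgen
      · exact even_zero p d c M (by omega) hdp hM h3 _ ha hgen
    rw [hzero, mul_zero] at hle
    omega

end Pool.Agent.Results.MP_60ec62_ag.DiagonalAtInfinity
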