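import Pool.Agent.H367.OS.GWu
import Pool.Agent.H367.OS.FldP

/-!
# The crystalline Tate conjecture in one codimension and one sequence of cubics

A relation `r` of size `m` is one of the equations `x_i x_j = x_l`, `x_i + x_j = x_l`, `x_i = 1` with
`i, j, l < m`; the relations are numbered, the number of `r` is `ν(r)` (`relNum`). Let `G_m` be the
following polynomial with integral coefficients (`univG ℤ m`). There are variables `x_i` and `z_ij` for
`i, j < m`, a variable `c_r` for every relation `r`, and variables `y_{r,l}` for all relations `r` and
`l < (m + 1) 2 ^ ν(r)`. The equations (`eqnG`) are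

  `z_ij - x_i x_j`,  `c_r ^ 2 - c_r`,  `c_r ρ_r`,  `(1 - c_r) y_{r,l}`,

where `ρ_r` is the linear polynomial `z_ij - x_l`, `x_i + x_j - x_l` or `x_i - 1` of the relation.
`G_m` is the sum of the equations multiplied by further variables `t_e`, one for each equation. It has
degree three. Let `C_m` be the affine cubic hypersurface `G_m = 1` (`cubG R m` over the ring `R`); it is
smooth over the integers.

Let `p` be a prime number. For a smooth projective scheme `Y` over `𝔽_p` let `A^n(Y)` be the
`ℚ_p`-subspace of `H^{2n}_crys(Y)` generated by the classes of cycles, and `B^n(Y)` the subspace of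
the elements `x` with `Fr_p(x) = p ^ n x`. Both are additive functors of the Chow motive of `Y`, and
`A^n(Y) ⊆ B^n(Y)`. The second form of question Q1 says that they are equal.

For a separated scheme `X` of finite type over `𝔽_p` let `W(X)` be the weight complex (Gillet, Soulé,
Bondarko, Kelly; a complex of Chow motives over `𝔽_p` with rational coefficients, for the cohomology
with compact supports; `W(X) = h(X)` for smooth proper `X`), and put `A^{n,i}(X) = H^i(A^n(W(X)))` and
`B^{n,i}(X) = H^i(B^n(W(X)))`. `BijAt C Prod.fst n X` says that the maps `A^{n,i}(X) → B^{n,i}(X)` are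
isomorphisms for this `n` and all `i`.

For a smooth proper scheme `X` over a finite field `K` of characteristic `p` let `Q1 n K X` be
question Q1 for `X` in the codimension `n`. If `X` is regarded as a scheme over `𝔽_p`, neither the
cycles, nor the `ℚ_p`-space `H^{2n}_crys(X)`, nor `Fr_p` change (hypothesis `describes`).

**Theorem.** Let `E_m` be the number of the equations, and for `N ∈ ℕ` let
`idx m n N = n + (m + 1) N + E_m - 1`.

(1) For every `n`, question Q1 has a positive answer in the codimension `n`, for all smooth proper
schemes over all finite fields of characteristic `p`, if and only if the maps `A^{idx m n N, i}(C_m) →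
B^{idx m n N, i}(C_m)` are isomorphisms for all `N` and `i`, for infinitely many `m`.

(2) It has a positive answer in all codimensions if and only if the maps
`A^{n, i}(C_m) → B^{n, i}(C_m)` are isomorphisms for all `n` and `i`, for infinitely many `m`.

(3) The hypersurfaces `C_m` decide the statements (`Decides`): for every affine scheme `Spec B` of
finite type over `𝔽_p` and all large `m` there is an `N` such that for `0 ≤ n ≤ m` the statement with
the index `n` for `Spec B` is equivalent to the one with the index `idx m n N` for `C_m`; and for
every separated scheme `X` of finite type and all large `m`, the statements for `C_m` imply the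
statements for `X`.

(4) For `n ≤ 0` the maps with the indices `idx m n N` are isomorphisms for `C_m`, for all `m` and `N`.

(5) `G_m` has integral coefficients and degree at most three, and `C_m` is smooth over all rings.

The hypotheses are standard: localisation sequences, affine bundles and products with `𝔾_m`
(`IsWeightPair`); the weight complex of a scheme of dimension at most `d` consists of direct factors of
motives of smooth projective varieties of dimension at most `d`, so that the groups vanish outside of
the codimensions `0, …, d` (`PVanish`, `GenAt`).

Idea of the proof. The projection of `C_m` to the affine space with the coordinates `x, z, c, y` is an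
affine bundle over the complement of the zero set `W_m` of the equations. The scheme `W_m` is the
disjoint union, over all sets `s` of relations (`c_r = 1` for `r ∈ s` and `c_r = 0` for the others), of
the products `X_s × 𝔸 ^ ((m + 1) N(s))`, where `X_s` is the affine scheme defined by the relations in
`s` and `N(s) = ∑_{r ∈ s} 2 ^ ν(r)`. The numbers `N(s)` are different, and the dimension of `X_s` is at
most `m`. So the invariant of `W_m` with the index `q + (m + 1) N(s)`, `0 ≤ q ≤ m`, is the invariant of
`X_s` with the index `q`; the other components do not contribute. Every affine scheme of finite type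
over a prime field is an `X_s`, for all large `m`.

The universal system of relations is the one of helper854 (`Pool.Agent.H854.SQ`).
-/

set_option autoImplicit false

open CategoryTheory CategoryTheory.Limits AlgebraicGeometry Pool.Agent.Y116.UV Pool.Agent.Z125.UN
  Pool.Agent.Q193.LT Pool.Agent.Q49.WU Pool.Agent.H854.SQ Pool.Agent.H367.OS Pool.Agent.Q148.LI

universe w



namespace Pool.Agent.Results.MP_60ec62_ag.OneSequenceOverTheIntegers

/-- The smooth proper schemes over `K`. -/
def SmProper (K : Type) [Field K] (X : Sch K) : Prop := SmoothProper X

/-- **The crystalline Tate conjecture and one sequence of cubic hypersurfaces over the integers.** See the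
explanations above. Known cases that are used: the point, and the codimensions `≤ 0`. -/
theorem result {p : ℕ} [Fact p.Prime] {C : PairData.{w} (ZMod p) (ℤ × ℤ) ℚ_[p]}
    (weight : IsWeightPair C) (vanish : PVanish C Prod.fst) (generated : GenAt C Prod.fst)
    (point : BijAll C (aff (ZMod p) (ZMod p)))
    (low : ∀ N : ℤ, N ≤ 0 → ∀ Y : Sch (ZMod p), SmoothProj Y → BijAt C Prod.fst N Y)
    {Q1 : ℕ → ∀ (K : Type) [Field K] [Finite K] [CharP K p], Sch K → Prop}
    (describes : ∀ n : ℕ, FromFp p SmProper (Q1 n) fun Y => BijAt C Prod.fst n Y) :
    (∀ n : ℕ, AllFp p SmProper (Q1 n) ↔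
      ∃ᶠ m in Filter.atTop, ∀ N : ℕ, BijAt C Prod.fst (idx m n N) (cubG (ZMod p) m)) ∧
    ((∀ n : ℕ, AllFp p SmProper (Q1 n)) ↔
      ∃ᶠ m in Filter.atTop, ∀ n : ℤ, BijAt C Prod.fst n (cubG (ZMod p) m)) ∧
    Decides (BijAt C Prod.fst) ∧
    (∀ m N : ℕ, BijAt C Prod.fst (idx m 0 N) (cubG (ZMod p) m)) ∧
    ∀ m : ℕ, (univG ℤ m).totalDegree ≤ 3 ∧
      ∀ (R : Type) [CommRing R], MvPolynomial.map (Int.castRingHom R) (univG ℤ m) = univG R m ∧
        Smooth (cubG R m).hom := by
  have hd : Decides (BijAt C Prod.fst) :=
    decides_pair (isPrimeField_zmod p) generated weight graded_weight vanish point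
  have h0 : ∀ n : ℕ, AllFp p SmProper (Q1 n) ↔
      ∀ X : Sch (ZMod p), FT True X → BijAt C Prod.fst n X := by
    intro n
    have h1 : (∀ Y : Sch (ZMod p), SmoothProj Y → BijAt C Prod.fst n Y) ↔
      ∀ X : Sch (ZMod p), FT True X → BijAt C Prod.fst n X := (hd.index n).out 1 2
    refine (describes n).all.trans ⟨fun g => h1.mp fun Y hY => g Y (SmoothProj.proper' hY),
      fun g Y hY => g Y (SmoothProper.ft hY)⟩
  have h2 : (∀ X : Sch (ZMod p), FT True X → ∀ n : ℤ, BijAt C Prod.fst n X) ↔
      ∃ᶠ m in Filter.atTop, ∀ n : ℤ, BijAt C Prod.fst n (cubG (ZMod p) m) := hd.all.out 2 0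
  refine ⟨fun n => (h0 n).trans ((hd.index n).out 2 0),
    Iff.trans ⟨fun g X hX n => ?_, fun g n => (h0 n).mpr fun X hX => g X hX n⟩ h2, hd,
    fun m N => ?_, cubG_facts⟩
  · rcases le_or_gt n 0 with hn | hn
    · exact generated n (low n hn) X hX
    · lift n to ℕ using hn.le
      exact (h0 n).mp (g n) X hX
  · exact known_indices (graduated_pair weight graded_weight vanish point)
      (generated _) (low _ (by simp)) (Nat.zero_le m) N

end Pool.Agent.Results.MP_60ec62_ag.OneSequenceOverTheIntegers
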